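import Pool.Agent.R425.G.Al
import Pool.Agent.Run7.h16.OP.GloC
import Pool.Agent.Run7.h16.OP.Desc

/-!
The algebraic side: if `E(K)` is finite and `Ш(E/K)` has no element of order `p`, for a Galois extension
`K` of degree a power of `p` and `E` without rational points of order `p`, then the same holds over `ℚ`;
and the converse under the conditions of helper16's `sel_p`.
-/

set_option autoImplicit false
set_option linter.all false

open NumberField IsDedekindDomain WithZero WeierstrassCurve WeierstrassCurve.Affine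
open scoped NNReal Classical

namespace Run7.h946.FP

open Run7.h16.OP (NoTor noTor_K noTor_q divS s_desc sel_p aq)
open Pool.Agent.TH115.GD hiding sh
open Pool.Agent.Y702.G (sh base pts)
open Pool.Agent.Y355.G (trE trE_inj trE_surj trE_act isSh')
open Pool.Agent.R425.G (loc_to loc_from cj cj_mul cont_cj eq' loc_bc presF iso fg_pts exists_j
  exists_jinf exists_prime_mem exists_ng fin_Q)

/-- The `p`-Selmer group of `V` over the number field `K`, with the conditions at all places, is
trivial. -/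
def SelI (p : ℕ) (V : WeierstrassCurve ℚ) (K : Type) [Field K] [NumberField K] : Prop :=
  ∀ f : (AlgebraicClosure K ≃ₐ[K] AlgebraicClosure K) → Pt V (AlgebraicClosure K),
    IsCoc V f → (∀ σ, p • f σ = 0) →
    (∀ v : HeightOneSpectrum (𝓞 K),
      LocTriv V (v.adicCompletion K) (AlgebraicClosure (v.adicCompletion K)) f) →
    (∀ v : InfinitePlace K, LocTriv V v.Completion (AlgebraicClosure v.Completion) f) →
    ∃ T : Pt V (AlgebraicClosure K), p • T = 0 ∧ ∀ σ, f σ = act V (rs ℚ σ) T - T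

section main

variable {p : ℕ} (W : WeierstrassCurve ℤ) (K : Type) [Field K] [NumberField K] (hW : W.Δ ≠ 0)

/-- The Selmer group is trivial if the group of the points is finite and the Tate-Shafarevich group
has no element of order `p`. -/
theorem selI_of (hnt : NoTor (sh W) K (AlgebraicClosure K) p)
    (hfin : Finite (base W K).toAffine.Point)
    (hsha : ∀ s : Pool.Agent.TH841.NF.D.Sha (base W K), p • s = 0 → s = 0) : SelI p (sh W) K := by
  intro g hg1 hg3 hg4 hg5
  have hsurj := trE_surj W (K := K) (AlgebraicClosure K)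
  choose inv hinv using hsurj
  set f : Pool.Agent.TH841.SH.D.Coch (base W K) := fun σ => inv (g σ) with hf
  have hfe : ∀ σ, trE W (AlgebraicClosure K) (f σ) = g σ := fun σ => hinv _
  have nat : ∀ (σ : AlgebraicClosure K ≃ₐ[K] AlgebraicClosure K)
      (R : Pool.Agent.TH841.SH.D.Pt (base W K) (AlgebraicClosure K)),
      trE W (AlgebraicClosure K) (Pool.Agent.TH841.SH.D.act (base W K) σ.toAlgHom R) =
        act (sh W) (rs ℚ σ) (trE W (AlgebraicClosure K) R) := fun σ R =>
    trE_act W σ.toAlgHom (rs ℚ σ) (fun x => rfl) R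
  have hcoc : Pool.Agent.TH841.SH.D.IsCoc (base W K) f := by
    refine ⟨hg1.1.comp inv, fun σ τ => ?_⟩
    apply trE_inj W (K := K) (AlgebraicClosure K)
    rw [map_add, nat, hfe, hfe, hfe]
    exact hg1.2 σ τ
  have hmem : f ∈ Pool.Agent.TH841.NF.D.shaCoc (base W K) := by
    refine ⟨hcoc, fun v => ?_, fun v => ?_⟩
    · exact loc_to W _ hg1 (hg4 v) hfe
    · exact loc_to W _ hg1 (hg5 v) hfe
  -- the class in the Tate-Shafarevich group
  set s : Pool.Agent.TH841.NF.D.Sha (base W K) := QuotientAddGroup.mk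
    (⟨f, hmem⟩ : Pool.Agent.TH841.NF.D.shaCoc (base W K)) with hs
  have hsm : ∀ (n : ℕ) (F : Pool.Agent.TH841.NF.D.shaCoc (base W K))
      (σ : Pool.Agent.TH841.SH.D.Gal K), (n • F).1 σ = n • F.1 σ := by
    intro n F σ
    induction n with
    | zero =>
      rw [zero_nsmul, zero_nsmul]
      rfl
    | succ n ih =>
      rw [succ_nsmul, succ_nsmul, ← ih]
      rfl
  have h2f : p • (⟨f, hmem⟩ : Pool.Agent.TH841.NF.D.shaCoc (base W K)) = 0 := by
    apply Subtype.ext
    funext σ
    apply trE_inj W (K := K) (AlgebraicClosure K)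
    rw [hsm]
    show trE W (AlgebraicClosure K) (p • f σ) = trE W (AlgebraicClosure K) 0
    rw [map_zero, map_nsmul, hfe, hg3]
  have h2s : p • s = 0 := by
    have e1 : p • s = QuotientAddGroup.mk
      (p • (⟨f, hmem⟩ : Pool.Agent.TH841.NF.D.shaCoc (base W K))) := rfl
    rw [e1, h2f]
    rfl
  have hs0 := hsha s h2s
  rw [hs] at hs0
  have hs1 := (QuotientAddGroup.eq_zero_iff _).1 hs0
  rw [AddSubgroup.mem_addSubgroupOf] at hs1
  obtain ⟨P, hP⟩ := hs1
  set Q := trE W (AlgebraicClosure K) P with hQ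
  have hgQ : ∀ σ : AlgebraicClosure K ≃ₐ[K] AlgebraicClosure K,
      g σ = act (sh W) (rs ℚ σ) Q - Q := by
    intro σ
    rw [← hfe, hQ, ← nat, ← map_sub]
    exact congrArg (trE W (AlgebraicClosure K)) (hP σ)
  -- the multiple is a point over `K`
  have hfix : ∀ σ : AlgebraicClosure K ≃ₐ[K] AlgebraicClosure K,
      act (sh W) (rs ℚ σ) (p • Q) = p • Q := by
    intro σ
    have h3 := hg3 σ
    rw [hgQ σ, nsmul_sub, sub_eq_zero] at h3
    rw [map_nsmul]
    exact h3
  obtain ⟨R, hR⟩ := fixed_point (K := ℚ) (F := K) (sh W) (p • Q) hfix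
  -- the multiplication by `p` is bijective on the points over `K`
  have hfinW : Finite (Pt (sh W) K) := by
    let e : (base W K).toAffine.Point ≃ Pt (sh W) K :=
      Equiv.ofBijective (Pool.Agent.Y355.G.tr (isSh' W K))
      ⟨fun P Q h => Pool.Agent.Y355.G.tr_inj _ h, fun Q => Pool.Agent.Y355.G.tr_surj _ Q⟩
    exact Finite.of_equiv _ e
  have hinj : Function.Injective (fun x : Pt (sh W) K => p • x) := by
    intro x y hxy
    have hxy' : p • x = p • y := hxy
    have h5 : p • (x - y) = 0 := by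
      rw [nsmul_sub, hxy', sub_self]
    have h6 : act (sh W) (incl ℚ K (AlgebraicClosure K)) (x - y) = 0 := by
      apply hnt
      · rw [← map_nsmul, h5, map_zero]
      · intro σ
        exact rs_act_incl (sh W) σ (x - y)
    have h7 : x - y = 0 := by
      apply act_inj (sh W) (incl ℚ K (AlgebraicClosure K))
      rw [h6, map_zero]
    exact sub_eq_zero.1 h7
  obtain ⟨R', hR'⟩ := (Finite.injective_iff_surjective.1 hinj) R
  have hR'' : p • R' = R := hR'
  refine ⟨Q - act (sh W) (incl ℚ K (AlgebraicClosure K)) R', ?_, fun σ => ?_⟩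
  · have h8 : p • act (sh W) (incl ℚ K (AlgebraicClosure K)) R' = p • Q := by
      rw [← map_nsmul, hR'', hR]
    rw [nsmul_sub, h8, sub_self]
  · rw [hgQ σ, map_sub, rs_act_incl]
    abel

end main

section infl

variable {p : ℕ} {V : WeierstrassCurve ℚ} {F Ω M Ω2 : Type} [Field F] [Field Ω] [Field M] [Field Ω2]
  [Algebra ℚ F] [Algebra F Ω] [Algebra ℚ Ω] [IsScalarTower ℚ F Ω] [Algebra ℚ M] [Algebra M Ω2]
  [Algebra ℚ Ω2] [IsScalarTower ℚ M Ω2] [Algebra F M] [Algebra F Ω2] [IsScalarTower F M Ω2]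
  [IsScalarTower ℚ F Ω2] [IsGalois F Ω] [IsGalois M Ω2]

/-- A cocycle over `F` which is trivial over `M` is trivial. -/
theorem inflp [IsSepClosed Ω2] (hN : Preserves F M Ω2) (hnt : NoTor V M Ω2 p)
    {g : (Ω2 ≃ₐ[F] Ω2) → Pt V Ω2}
    (hg : ∀ σ τ, g (σ * τ) = g σ + act V (rs ℚ σ) (g τ)) (hg2 : ∀ σ, p • g σ = 0)
    {T : Pt V Ω2} (hT : p • T = 0)
    (hgT : ∀ σ : Ω2 ≃ₐ[M] Ω2,
      g (σ.restrictScalars F) = act V (rs ℚ σ) T - T) (σ : Ω2 ≃ₐ[F] Ω2) :
    g σ = act V (rs ℚ σ) T - T := by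
  have haa : ∀ (σ ρ : Ω2 ≃ₐ[F] Ω2) (P : Pt V Ω2),
      act V (rs ℚ (σ * ρ)) P = act V (rs ℚ σ) (act V (rs ℚ ρ) P) := by
    intro σ ρ P
    rw [act_act]
    rfl
  set h : (Ω2 ≃ₐ[F] Ω2) → Pt V Ω2 := fun σ => g σ - (act V (rs ℚ σ) T - T) with hh
  have hhm : ∀ σ τ, h (σ * τ) = h σ + act V (rs ℚ σ) (h τ) := by
    intro σ τ
    simp only [hh]
    rw [hg, haa, map_sub, map_sub]
    abel
  have hh0 : ∀ τ : Ω2 ≃ₐ[M] Ω2, h (τ.restrictScalars F) = 0 := by
    intro τ
    simp only [hh]
    rw [hgT]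
    exact sub_self _
  have hh2 : p • h σ = 0 := by
    simp only [hh]
    have h1 : p • act V (rs ℚ σ) T = 0 := by rw [← map_nsmul, hT, map_zero]
    rw [nsmul_sub, nsmul_sub, hg2, h1, hT, sub_zero, sub_zero]
  have hfix : ∀ τ : Ω2 ≃ₐ[M] Ω2, act V (rs ℚ τ) (h σ) = h σ := by
    intro τ
    obtain ⟨τ', hτ'⟩ := exists_conj hN σ τ
    have e1 : (τ.restrictScalars F) * σ = σ * (τ'.restrictScalars F) := by
      apply AlgEquiv.ext
      intro x
      exact (hτ' x).symm
    have e2 := hhm (τ.restrictScalars F) σ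
    rw [e1, hhm, hh0, hh0, map_zero, add_zero, zero_add] at e2
    exact e2.symm
  have h0 := hnt (h σ) hh2 hfix
  exact sub_eq_zero.1 h0

theorem cjp (ε : Ω ≃ₐ[F] Ω2) {f : (Ω ≃ₐ[F] Ω) → Pt V Ω} (hf : ∀ σ, p • f σ = 0)
    (σ : Ω2 ≃ₐ[F] Ω2) : p • cj V ε f σ = 0 := by
  unfold cj
  rw [← map_nsmul, hf, map_zero]

/-- back to the first closure -/
theorem cj_backp (ε : Ω ≃ₐ[F] Ω2) {f : (Ω ≃ₐ[F] Ω) → Pt V Ω} {T : Pt V Ω2} (hT : p • T = 0)
    (h : ∀ σ : Ω2 ≃ₐ[F] Ω2, cj V ε f σ = act V (rs ℚ σ) T - T) :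
    ∃ T' : Pt V Ω, p • T' = 0 ∧ ∀ σ, f σ = act V (rs ℚ σ) T' - T' := by
  refine ⟨act V (ε.symm.toAlgHom.restrictScalars ℚ) T, ?_, fun σ => ?_⟩
  · rw [← map_nsmul, hT, map_zero]
  · have h4 := h ((ε.symm.trans σ).trans ε)
    have h5 : cj V ε f ((ε.symm.trans σ).trans ε) = act V (eq' ε) (f σ) := by
      unfold cj
      congr 2
      apply AlgEquiv.ext
      intro x
      show ε.symm (ε (σ (ε.symm (ε x)))) = σ x
      rw [ε.symm_apply_apply, ε.symm_apply_apply]
    have h6 : act V (eq' ε) (f σ) = act V (rs ℚ ((ε.symm.trans σ).trans ε)) T - T :=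
      h5.symm.trans h4
    apply act_inj V (eq' ε)
    have e3 : (eq' ε).comp (ε.symm.toAlgHom.restrictScalars ℚ) = AlgHom.id ℚ Ω2 := by
      apply AlgHom.ext
      intro x
      show ε (ε.symm x) = x
      rw [ε.apply_symm_apply]
    have e4 : act V (AlgHom.id ℚ Ω2) T = T := by
      rcases T with _ | ⟨x, y, hxy⟩ <;> rfl
    have e5 : ((eq' ε).comp (rs ℚ σ)).comp (ε.symm.toAlgHom.restrictScalars ℚ) =
        rs ℚ ((ε.symm.trans σ).trans ε) := by
      apply AlgHom.ext
      intro x
      rfl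
    rw [h6, map_sub, act_act, act_act, act_act, e5, e3, e4]

end infl

section down

variable {p : ℕ} (W : WeierstrassCurve ℤ)

theorem selI_down {F K : Type} [Field F] [NumberField F] [Field K] [NumberField K] [Algebra F K]
    [IsGalois F K] (hnt : NoTor (sh W) K (AlgebraicClosure K) p)
    (hjF : ∀ v : HeightOneSpectrum (𝓞 K), ∃ (p : HeightOneSpectrum (𝓞 F))
      (j : p.adicCompletion F →+* v.adicCompletion K),
      ∀ x : F, j (algebraMap F _ x) = algebraMap K _ (algebraMap F K x))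
    (hjI : ∀ v : InfinitePlace K, ∃ (u : InfinitePlace F)
      (j : u.Completion →+* v.Completion),
      ∀ x : F, j (algebraMap F _ x) = algebraMap K _ (algebraMap F K x))
    (hS : SelI p (sh W) K) : SelI p (sh W) F := by
  intro f hf1 hf2 hf3 hf4
  haveI : IsScalarTower ℚ F (AlgebraicClosure K) := IsScalarTower.of_algebraMap_eq fun x => by simp
  haveI : IsGalois F (AlgebraicClosure F) := by
    haveI : CharZero F := inferInstance
    infer_instance
  haveI : IsGalois K (AlgebraicClosure K) := by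
    haveI : CharZero K := inferInstance
    infer_instance
  haveI : IsGalois F (AlgebraicClosure K) := by
    haveI : Algebra.IsAlgebraic F (AlgebraicClosure K) := Algebra.IsAlgebraic.trans F K _
    haveI : IsAlgClosure F (AlgebraicClosure K) := ⟨inferInstance, inferInstance⟩
    exact IsAlgClosure.isGalois F _
  let ε : AlgebraicClosure F ≃ₐ[F] AlgebraicClosure K := by
    haveI : Algebra.IsAlgebraic F (AlgebraicClosure K) := Algebra.IsAlgebraic.trans F K _
    haveI : IsAlgClosure F (AlgebraicClosure K) := ⟨inferInstance, inferInstance⟩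
    exact IsAlgClosure.equiv F (AlgebraicClosure F) (AlgebraicClosure K)
  have hcoc : IsCoc (F := K) (sh W) (fun σ : AlgebraicClosure K ≃ₐ[K] AlgebraicClosure K =>
      cj (sh W) ε f (σ.restrictScalars F)) := by
    refine ⟨?_, fun σ τ => cj_mul ε hf1 (σ.restrictScalars F) (τ.restrictScalars F)⟩
    have h2 : IsLocallyConstant (fun σ : AlgebraicClosure K ≃ₐ[F] AlgebraicClosure K =>
        cj (sh W) ε f σ) := (hf1.1.comp_continuous (cont_cj ε)).comp (act (sh W) (eq' ε))
    exact h2.comp_continuous cont_rs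
  obtain ⟨T, hT, hT2⟩ := hS _ hcoc (fun σ => cjp ε hf2 _)
    (fun v => by
      obtain ⟨p, j, hj⟩ := hjF v
      haveI : IsGalois (p.adicCompletion F) (AlgebraicClosure (p.adicCompletion F)) := by
        haveI : CharZero (p.adicCompletion F) := algebraRat.charZero _
        infer_instance
      haveI : IsGalois (v.adicCompletion K) (AlgebraicClosure (v.adicCompletion K)) := by
        haveI : CharZero (v.adicCompletion K) := algebraRat.charZero _
        infer_instance
      letI : Algebra F (v.adicCompletion K) :=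
        ((algebraMap K (v.adicCompletion K)).comp (algebraMap F K)).toAlgebra
      haveI : IsScalarTower F K (v.adicCompletion K) := IsScalarTower.of_algebraMap_eq fun x => rfl
      haveI : IsScalarTower F K (AlgebraicClosure (v.adicCompletion K)) :=
        IsScalarTower.of_algebraMap_eq fun x => rfl
      exact loc_bc ε hf1 j hj IsAlgClosed.lift (hf3 p))
    (fun v => by
      obtain ⟨u, j, hj⟩ := hjI v
      haveI : IsGalois (u.Completion) (AlgebraicClosure (u.Completion)) := by
        haveI : CharZero (u.Completion) := algebraRat.charZero _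
        infer_instance
      haveI : IsGalois (v.Completion) (AlgebraicClosure (v.Completion)) := by
        haveI : CharZero (v.Completion) := algebraRat.charZero _
        infer_instance
      letI : Algebra F (v.Completion) :=
        ((algebraMap K (v.Completion)).comp (algebraMap F K)).toAlgebra
      haveI : IsScalarTower F K (v.Completion) := IsScalarTower.of_algebraMap_eq fun x => rfl
      haveI : IsScalarTower F K (AlgebraicClosure (v.Completion)) :=
        IsScalarTower.of_algebraMap_eq fun x => rfl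
      exact loc_bc ε hf1 j hj IsAlgClosed.lift (hf4 u))
  have h3 := inflp (presF F K (AlgebraicClosure K)) hnt (g := fun σ => cj (sh W) ε f σ)
    (fun σ τ => cj_mul ε hf1 σ τ) (fun σ => cjp ε hf2 σ) hT hT2
  exact cj_backp ε hT h3

theorem selI_Q {K : Type} [Field K] [NumberField K] [IsGalois ℚ K]
    (hnt : NoTor (sh W) K (AlgebraicClosure K) p) (hS : SelI p (sh W) K) : SelI p (sh W) ℚ := by
  refine selI_down W hnt (fun v => ?_) (fun v => ?_) hS
  · obtain ⟨q, hq, hqv⟩ := exists_prime_mem v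
    obtain ⟨p, rfl⟩ := exists_ng hq
    obtain ⟨j⟩ := exists_j v p hqv
    exact ⟨p, j, fun x => RingHom.congr_fun (Subsingleton.elim
      (j.comp (algebraMap ℚ (p.adicCompletion ℚ)))
      ((algebraMap K (v.adicCompletion K)).comp (algebraMap ℚ K))) x⟩
  · obtain ⟨j⟩ := exists_jinf v Rat.infinitePlace
    exact ⟨Rat.infinitePlace, j, fun x => RingHom.congr_fun (Subsingleton.elim
      (j.comp (algebraMap ℚ (Rat.infinitePlace.Completion)))
      ((algebraMap K (v.Completion)).comp (algebraMap ℚ K))) x⟩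

/-- no element of order `p` in the Tate-Shafarevich group -/
theorem shaI [hp : Fact p.Prime] (hW : W.Δ ≠ 0) {K : Type} [Field K] [NumberField K]
    (hS : SelI p (sh W) K) (s : Pool.Agent.TH841.NF.D.Sha (base W K))
    (hs : p • s = 0) : s = 0 := by
  obtain ⟨f, rfl⟩ := QuotientAddGroup.mk_surjective
    (s := (Pool.Agent.TH841.SH.D.cob (base W K)).addSubgroupOf
      (Pool.Agent.TH841.NF.D.shaCoc (base W K))) s
  have h2 : (QuotientAddGroup.mk (p • f) : (Pool.Agent.TH841.NF.D.shaCoc (base W K)) ⧸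
    (Pool.Agent.TH841.SH.D.cob (base W K)).addSubgroupOf
      (Pool.Agent.TH841.NF.D.shaCoc (base W K))) = 0 := hs
  rw [QuotientAddGroup.eq_zero_iff, AddSubgroup.mem_addSubgroupOf] at h2
  obtain ⟨P, hP⟩ := h2
  have hsm : ∀ (n : ℕ) (σ : Pool.Agent.TH841.SH.D.Gal K), (n • f).1 σ = n • f.1 σ := by
    intro n σ
    induction n with
    | zero =>
      rw [zero_nsmul, zero_nsmul]
      rfl
    | succ n ih =>
      rw [succ_nsmul, succ_nsmul, ← ih]
      rfl
  have hP' : ∀ σ, p • f.1 σ = Pool.Agent.TH841.SH.D.act (base W K) σ.toAlgHom P - P := by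
    intro σ
    rw [← hP σ]
    exact (hsm p σ).symm
  obtain ⟨Q, hQ⟩ := divS W hW (AlgebraicClosure K) hp.out.one_le (trE W (AlgebraicClosure K) P)
  have nat : ∀ (σ : AlgebraicClosure K ≃ₐ[K] AlgebraicClosure K)
      (R : Pool.Agent.TH841.SH.D.Pt (base W K) (AlgebraicClosure K)),
      trE W (AlgebraicClosure K) (Pool.Agent.TH841.SH.D.act (base W K) σ.toAlgHom R) =
        act (sh W) (rs ℚ σ) (trE W (AlgebraicClosure K) R) := fun σ R =>
    trE_act W σ.toAlgHom (rs ℚ σ) (fun x => rfl) R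
  let g : (AlgebraicClosure K ≃ₐ[K] AlgebraicClosure K) → Pt (sh W) (AlgebraicClosure K) :=
    fun σ => trE W (AlgebraicClosure K) (f.1 σ)
  have hgc : IsCoc (sh W) g := by
    refine ⟨f.2.1.1.comp _, fun σ τ => ?_⟩
    show trE W (AlgebraicClosure K) (f.1 (σ * τ)) = trE W (AlgebraicClosure K) (f.1 σ) +
      act (sh W) (rs ℚ σ) (trE W (AlgebraicClosure K) (f.1 τ))
    rw [f.2.1.2, map_add, nat]
  have hgloc : ∀ v : HeightOneSpectrum (𝓞 K),
      LocTriv (sh W) (v.adicCompletion K) (AlgebraicClosure (v.adicCompletion K)) g :=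
    fun v => loc_from W (v.adicCompletion K) (f.2.2.1 v)
  have hgloc' : ∀ v : InfinitePlace K,
      LocTriv (sh W) v.Completion (AlgebraicClosure v.Completion) g :=
    fun v => loc_from W v.Completion (f.2.2.2 v)
  have hg2 : ∀ σ, p • g σ = act (sh W) (rs ℚ σ) (trE W (AlgebraicClosure K) P) -
      trE W (AlgebraicClosure K) P := by
    intro σ
    show p • trE W (AlgebraicClosure K) (f.1 σ) = _
    rw [← map_nsmul, hP', map_sub, nat]
  obtain ⟨T, hT, h3⟩ := hS (fun σ => g σ - (act (sh W) (rs ℚ σ) Q - Q))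
    (hgc.sub (sh W) (cob_isCoc (sh W) Q)) (fun σ => by
      have e2 : p • (act (sh W) (rs ℚ σ) Q - Q) =
          act (sh W) (rs ℚ σ) (trE W (AlgebraicClosure K) P) - trE W (AlgebraicClosure K) P := by
        rw [nsmul_sub, ← map_nsmul]
        exact congrArg (fun z => act (sh W) (rs ℚ σ) z - z) hQ
      have e3 := hg2 σ
      show p • (g σ - (act (sh W) (rs ℚ σ) Q - Q)) = 0
      rw [nsmul_sub, e2, e3, sub_self])
    (fun v => LocTriv.sub (sh W) (hgloc v) Q) (fun v => LocTriv.sub (sh W) (hgloc' v) Q)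
  obtain ⟨R, hR⟩ := trE_surj W (K := K) (AlgebraicClosure K) (Q + T)
  have h4 : f ∈ (Pool.Agent.TH841.SH.D.cob (base W K)).addSubgroupOf
      (Pool.Agent.TH841.NF.D.shaCoc (base W K)) := by
    rw [AddSubgroup.mem_addSubgroupOf]
    refine ⟨R, fun σ => ?_⟩
    apply trE_inj W (K := K) (AlgebraicClosure K)
    rw [map_sub, nat, hR, map_add]
    have h5 := h3 σ
    have h6 : g σ = (act (sh W) (rs ℚ σ) T - T) + (act (sh W) (rs ℚ σ) Q - Q) := by
      rw [← h5]; abel
    show g σ = _
    rw [h6]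
    abel
  exact (QuotientAddGroup.eq_zero_iff f).2 h4

end down

/-! ### Torsion -/

/-- a prime `q` with `p ∤ #E(𝔽_q)` excludes points of order `p` over `ℚ` -/
theorem nt_base {p : ℕ} [hp : Fact p.Prime] (W : WeierstrassCurve ℤ) {q : ℕ} [hq : Fact q.Prime]
    (hpq : p ≠ q) (hq6 : ¬ (q : ℤ) ∣ 6 * W.Δ) (hc : ¬ p ∣ pts W (ZMod q) + 1)
    (K : Type) [Field K] [NumberField K] (R : Pt (sh W) ℚ)
    (hR : p • act (sh W) (incl ℚ ℚ (AlgebraicClosure K)) R = 0) : R = .zero := by
  haveI : Algebra.IsAlgebraic ℚ (AlgebraicClosure K) :=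
    Algebra.IsAlgebraic.trans ℚ K (AlgebraicClosure K)
  let φ : AlgebraicClosure K →ₐ[ℚ] PadicAlgCl q := IsAlgClosed.lift
  set T := act (sh W) φ (act (sh W) (incl ℚ ℚ (AlgebraicClosure K)) R) with hT
  have h1 : p • T = 0 := by rw [hT, ← map_nsmul, hR, map_zero]
  have h2 : ∀ τ, aq (sh W) τ T = T := by
    intro τ
    rw [hT]
    show act (sh W) (rs ℚ τ) (act (sh W) φ (act (sh W) (incl ℚ ℚ (AlgebraicClosure K)) R)) = _
    rw [act_act, act_act, act_act]
    have e : ((rs ℚ τ).comp φ).comp (incl ℚ ℚ (AlgebraicClosure K)) =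
        φ.comp (incl ℚ ℚ (AlgebraicClosure K)) := Subsingleton.elim _ _
    rw [e]
  have h3 := noTor_q W hpq hq6 hc T h1 h2
  have h4 : act (sh W) (incl ℚ ℚ (AlgebraicClosure K)) R = 0 := by
    apply act_inj (sh W) φ
    rw [map_zero]
    exact h3
  apply act_inj (sh W) (incl ℚ ℚ (AlgebraicClosure K))
  rw [h4]
  rfl

/-- a finitely generated group without elements of order `p` -/
theorem tors_nd {p : ℕ} [hp : Fact p.Prime] {A : Type} [AddCommGroup A] (hA : AddGroup.FG A)
    (h2 : ∀ a : A, p • a = 0 → a = 0) :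
    ¬ p ∣ Nat.card {P : A | ∃ n : ℕ, 0 < n ∧ n • P = 0} := by
  haveI : Module.Finite ℤ A := Module.Finite.iff_addGroup_fg.2 hA
  haveI : IsNoetherian ℤ A := isNoetherian_of_isNoetherianRing_of_finite ℤ A
  set T : AddSubgroup A := AddCommGroup.torsion A with hT
  have hset : {P : A | ∃ n : ℕ, 0 < n ∧ n • P = 0} = (T : Set A) := by
    ext P
    show _ ↔ IsOfFinAddOrder P
    rw [isOfFinAddOrder_iff_nsmul_eq_zero]
    rfl
  haveI : Module.Finite ℤ (AddSubgroup.toIntSubmodule T) := inferInstance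
  haveI hTf : Module.Finite ℤ T := this
  haveI hfg : AddGroup.FG T := Module.Finite.iff_addGroup_fg.1 hTf
  haveI hfin : Finite T := by
    apply AddCommGroup.finite_of_fg_isAddTorsion
    rintro ⟨x, hx⟩
    have h1 : IsOfFinAddOrder x := hx
    rw [isOfFinAddOrder_iff_nsmul_eq_zero] at h1 ⊢
    obtain ⟨n, hn, hn0⟩ := h1
    exact ⟨n, hn, Subtype.ext hn0⟩
  rw [hset]
  show ¬ p ∣ Nat.card T
  intro hdvd
  obtain ⟨x, hx⟩ := exists_prime_addOrderOf_dvd_card' p hdvd
  have h1 : p • x = 0 := by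
    rw [← hx]
    exact addOrderOf_nsmul_eq_zero x
  have h3 : p • (x : A) = 0 := by
    have := congrArg Subtype.val h1
    simpa using this
  have h4 : x = 0 := Subtype.ext (h2 _ h3)
  rw [h4, addOrderOf_zero] at hx
  exact hp.out.one_lt.ne hx

section grp

variable {p : ℕ} (W : WeierstrassCurve ℤ) {K : Type} [Field K] [NumberField K]

theorem p_tors (hnt : NoTor (sh W) K (AlgebraicClosure K) p)
    (P : (base W K).toAffine.Point) (h : p • P = 0) : P = 0 := by
  apply (iso W K).injective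
  rw [map_zero]
  apply act_inj (sh W) (incl ℚ K (AlgebraicClosure K))
  rw [map_zero]
  apply hnt
  · rw [← map_nsmul, ← map_nsmul, h, map_zero, map_zero]
  · intro σ
    exact rs_act_incl (sh W) σ _

theorem tors_card [hp : Fact p.Prime] (hW : W.Δ ≠ 0)
    (hnt : NoTor (sh W) K (AlgebraicClosure K) p) :
    ¬ p ∣ Nat.card {P : (base W K).toAffine.Point | ∃ n : ℕ, 0 < n ∧ n • P = 0} :=
  tors_nd (fg_pts W hW) fun P hP => p_tors W hnt P hP

theorem card_nd [hp : Fact p.Prime] (hW : W.Δ ≠ 0)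
    (hnt : NoTor (sh W) K (AlgebraicClosure K) p)
    (h : Finite (base W K).toAffine.Point) : ¬ p ∣ Nat.card (base W K).toAffine.Point := by
  have h1 := tors_card (p := p) W hW hnt
  have h2 : {P : (base W K).toAffine.Point | ∃ n : ℕ, 0 < n ∧ n • P = 0} = Set.univ := by
    ext P
    simp only [Set.mem_univ, iff_true]
    exact ⟨Nat.card (base W K).toAffine.Point, Nat.card_pos,
      card_nsmul_eq_zero' (G := (base W K).toAffine.Point) (x := P)⟩
  rw [h2, Nat.card_univ] at h1
  exact h1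

end grp

/-- **Down.** -/
theorem alg_down {p : ℕ} [hp : Fact p.Prime] (W : WeierstrassCurve ℤ) (hΔ : W.Δ ≠ 0)
    {K : Type} [Field K] [NumberField K] [IsGalois ℚ K]
    (hnt : NoTor (sh W) K (AlgebraicClosure K) p)
    (hfin : Finite (base W K).toAffine.Point)
    (hsha : ∀ s : Pool.Agent.TH841.NF.D.Sha (base W K), p • s = 0 → s = 0) :
    Finite (base W ℚ).toAffine.Point ∧
      ∀ s : Pool.Agent.TH841.NF.D.Sha (base W ℚ), p • s = 0 → s = 0 :=
  ⟨fin_Q W hfin, shaI W hΔ (selI_Q W hnt (selI_of W K hnt hfin hsha))⟩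

end Run7.h946.FP
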