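import Pool.Agent.R425.G.An

/-!
Tamagawa products modulo `p`; fractions with denominator prime to `p`
-/

set_option autoImplicit false
set_option linter.all false

open Filter Topology MeasureTheory Set UpperHalfPlane MatrixGroups CongruenceSubgroup Finset
open NumberField IsDedekindDomain NumberField.InfinitePlace

namespace Run7.h946.FP

open Pool.Agent.R425.G (cv cv_one cv_fin)

/-- quotients with denominator prime to `p` -/
theorem frac {p : ℕ} [hp : Fact p.Prime] (a b : ℤ) (hb : ¬ (p : ℤ) ∣ b) :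
    ¬ p ∣ ((a : ℚ) / b).den ∧ ((p : ℤ) ∣ ((a : ℚ) / b).num ↔ (p : ℤ) ∣ a) := by
  have hpI : Prime (p : ℤ) := Nat.prime_iff_prime_int.1 hp.out
  have hb0 : b ≠ 0 := by
    rintro rfl
    exact hb (dvd_zero _)
  set x : ℚ := (a : ℚ) / b with hx
  have hxeq : x.num * b = a * x.den := by
    have h1 : (x.num : ℚ) / x.den = (a : ℚ) / b := by rw [Rat.num_div_den, hx]
    have h2 : (x.den : ℚ) ≠ 0 := by exact_mod_cast x.den_nz
    have h3 : (b : ℚ) ≠ 0 := by exact_mod_cast hb0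
    rw [div_eq_div_iff h2 h3] at h1
    exact_mod_cast h1
  have hden : ¬ p ∣ x.den := by
    intro hcon
    have h1 : (p : ℤ) ∣ x.num * b := by
      rw [hxeq]
      exact Dvd.dvd.mul_left (by exact_mod_cast hcon) a
    rcases hpI.dvd_or_dvd h1 with h2 | h2
    · have h3 : p ∣ Nat.gcd x.num.natAbs x.den := Nat.dvd_gcd (Int.natCast_dvd.1 h2) hcon
      rw [x.reduced] at h3
      exact hp.out.one_lt.ne' (Nat.dvd_one.1 h3)
    · exact hb h2
  refine ⟨hden, ?_⟩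
  have hden' : ¬ (p : ℤ) ∣ (x.den : ℤ) := by exact_mod_cast hden
  constructor
  · intro h
    have h1 : (p : ℤ) ∣ a * x.den := by rw [← hxeq]; exact Dvd.dvd.mul_right h b
    exact (hpI.dvd_or_dvd h1).resolve_right hden'
  · intro h
    have h1 : (p : ℤ) ∣ x.num * b := by rw [hxeq]; exact Dvd.dvd.mul_right h _
    exact (hpI.dvd_or_dvd h1).resolve_right hb

section tam

open Classical

variable {p : ℕ} [hp : Fact p.Prime] (W : WeierstrassCurve ℤ) {K : Type} [Field K] [NumberField K]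

theorem tam_nd_iff (hW : W.Δ ≠ 0) :
    ¬ p ∣ (∏ᶠ v : HeightOneSpectrum (𝓞 K), cv W v) ↔
      ∀ v : HeightOneSpectrum (𝓞 K), ¬ p ∣ cv W v := by
  have hp1 : ¬ p ∣ 1 := fun h => hp.out.one_lt.ne' (Nat.dvd_one.1 h)
  constructor
  · intro h v
    by_cases hv : cv W v = 1
    · rw [hv]; exact hp1
    · intro h1
      apply h
      refine h1.trans ?_
      rw [finprod_eq_prod_of_mulSupport_subset (s := (cv_fin (K := K) W hW).toFinset)
        (fun v => cv W v) (by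
        intro w hw
        simpa using hw)]
      exact Finset.dvd_prod_of_mem _ (by simpa using hv)
  · intro h
    exact finprod_induction (fun x => ¬ p ∣ x) hp1
      (fun a b ha hb hab => (hp.out.dvd_mul.1 hab).elim ha hb) h

/-- the Tamagawa products modulo `p` -/
theorem tam_iff (hW : W.Δ ≠ 0) (m : ℕ)
    (hm : ∀ l : ℕ, l.Prime → l ∣ m → ¬ (l : ℤ) ∣ 2 * W.Δ)
    (hunr : ∀ (p : ℕ), p.Prime → ¬ p ∣ m → ∀ v : HeightOneSpectrum (𝓞 K), (p : 𝓞 K) ∈ v.asIdeal →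
      v.valuation K (p : K) = WithZero.exp (-1 : ℤ))
    (hbelow : ∀ v : HeightOneSpectrum (𝓞 K), ((W.Δ : ℤ) : 𝓞 K) ∈ v.asIdeal →
      (∀ x : ℚ, v.valuation K (algebraMap ℚ K x) = (v.under (𝓞 ℚ)).valuation ℚ x) ∧
      (Ideal.absNorm v.asIdeal).Prime) :
    ¬ p ∣ (∏ᶠ v : HeightOneSpectrum (𝓞 K), cv W v) ↔
      ¬ p ∣ (∏ᶠ v : HeightOneSpectrum (𝓞 ℚ), cv W v) := by
  have hp1 : ¬ p ∣ 1 := fun h => hp.out.one_lt.ne' (Nat.dvd_one.1 h)
  rw [tam_nd_iff W hW, tam_nd_iff W hW]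
  constructor
  · intro h q
    by_cases hq : ((W.Δ : ℤ) : 𝓞 ℚ) ∈ q.asIdeal
    · have hlt : q.valuation ℚ (W.Δ : ℚ) < 1 := by
        have h3 := (q.valuation_lt_one_iff_mem (K := ℚ) ((W.Δ : ℤ) : 𝓞 ℚ)).2 hq
        have e : algebraMap (𝓞 ℚ) ℚ ((W.Δ : ℤ) : 𝓞 ℚ) = (W.Δ : ℚ) := map_intCast _ _
        have h4 : q.valuation ℚ (algebraMap (𝓞 ℚ) ℚ ((W.Δ : ℤ) : 𝓞 ℚ)) < 1 := h3
        rwa [e] at h4
      have hne : q.valuation ℚ (2 * (Pool.Agent.Y702.G.sh W).Δ) ≠ 1 := by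
        have e : 2 * (Pool.Agent.Y702.G.sh W).Δ = ((2 * 2 ^ 12 : ℤ) : ℚ) * (W.Δ : ℚ) := by
          rw [Pool.Agent.Y702.G.sh_disc]
          push_cast
          ring
        rw [e, map_mul]
        have h5 : q.valuation ℚ (((2 * 2 ^ 12 : ℤ)) : ℚ) ≤ 1 := Pool.Agent.Y702.Fn.int_le_one q _
        exact (lt_of_le_of_lt (mul_le_of_le_one_left' h5) hlt).ne
      obtain ⟨v, hv1, hv2⟩ := Pool.Agent.Y702.G.exists_place (K := K) W hW m hm hunr q hne
      have hv : ((W.Δ : ℤ) : 𝓞 K) ∈ v.asIdeal := by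
        rw [← v.valuation_lt_one_iff_mem (K := K)]
        have e : algebraMap (𝓞 K) K ((W.Δ : ℤ) : 𝓞 K) = algebraMap ℚ K (W.Δ : ℚ) := by simp
        show v.valuation K (algebraMap (𝓞 K) K ((W.Δ : ℤ) : 𝓞 K)) < 1
        rw [e, hv2]
        exact hlt
      have h6 := Pool.Agent.Y852.GS.s_tams W K v q hv2 (hbelow v hv).2
      have h7 := h v
      unfold cv at h7 ⊢
      rwa [← h6]
    · rw [cv_one W q hq]
      exact hp1
  · intro h v
    by_cases hv : ((W.Δ : ℤ) : 𝓞 K) ∈ v.asIdeal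
    · obtain ⟨h1, h2⟩ := hbelow v hv
      have h6 := Pool.Agent.Y852.GS.s_tams W K v _ h1 h2
      have h7 := h (v.under (𝓞 ℚ))
      unfold cv at h7 ⊢
      rwa [h6]
    · rw [cv_one W v hv]
      exact hp1

end tam

end Run7.h946.FP
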