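import Pool.Agent.Run7.h946.FP.Fin
import Pool.Agent.Y702.G.Main

/-!
# The `L`-function over a subfield of `p`-power degree of a cyclotomic field and its central value
# modulo `p`
-/

set_option autoImplicit false

open Filter Topology MeasureTheory Set UpperHalfPlane MatrixGroups CongruenceSubgroup Finset
open NumberField IsDedekindDomain H300.HW NumberField.InfinitePlace

namespace Run7.h946.FP

open Pool.Agent.Y702.G
open Pool.Agent.Y18.BSD (co bv PG Cf tm lf exists_L)
open Pool.Agent.Y702.L (pv conj_diff)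

variable {W : WeierstrassCurve ℤ} {N : ℕ} [NeZero N]
  {f : CuspForm (Gamma0 N : Subgroup (GL (Fin 2) ℝ)) 2}

open Classical in
theorem l_main {p : ℕ} [hp : Fact p.Prime] (hp2 : p ≠ 2) (hasp : S_HASP) (hΔ : W.Δ ≠ 0) {Op : ℝ}
    {Λ : Set ℂ} {c s t : ℤ}
    (hf : IsForm W N f) (hP : PerQ p f Op Λ c s t)
    {l : ℕ} (hl : l.Prime) (hlN : ¬ l ∣ N) (hlp : ¬ (p : ℤ) ∣ (pts W (ZMod l) : ℤ) + 1)
    (n : ℕ) [NeZero n] (hsq : Squarefree n)
    (hco : Nat.Coprime n N) (hn1 : ∀ l : ℕ, l.Prime → l ∣ n → (p : ℤ) ∣ (l : ℤ) - 1)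
    (L : Type) [Field L] [NumberField L] [IsCyclotomicExtension {n} ℚ L]
    (K : IntermediateField ℚ L) (k : ℕ) (hk : Module.finrank ℚ K = p ^ k)
    (hdeg : ∀ v : HeightOneSpectrum (𝓞 K), ((2 * W.Δ : ℤ) : 𝓞 K) ∈ v.asIdeal →
      (Ideal.absNorm v.asIdeal).Prime) :
    ∃ G : ℂ → ℂ, Differentiable ℂ G ∧
      (∀ s : ℂ, 3 / 2 < s.re → HasProd (factor (K := K) W s) (G s)) ∧
      (G 1).im = 0 ∧ ∃ D M : ℤ, ¬ (p : ℤ) ∣ D ∧
        (¬ (p : ℤ) ∣ M ↔ ¬ (p : ℤ) ∣ s ∧ ∀ l : ℕ, l.Prime → (l : ℤ) ∣ discr K →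
          ¬ p ∣ pts W (ZMod l) + 1) ∧
        |(D : ℝ)| * (‖G 1‖ * Real.sqrt |(discr K : ℝ)|) = |(M : ℝ)| * Op ^ (p ^ k) := by
  have htw := fun χ : DirichletCharacter ℂ n => twist hf χ.conductor
    (Nat.Coprime.coprime_dvd_left χ.conductor_dvd_level hco) χ.primitiveCharacter
    χ.primitiveCharacter_isPrimitive
  choose Gc hG1 hG2 hG3 using htw
  set G : ℂ → ℂ := fun s => ∏ χ : YY n L K, Gc χ s with hG
  have hGd : Differentiable ℂ G := by
    rw [hG]
    exact Differentiable.fun_finsetProd fun χ _ => hG1 χ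
  have hGp : ∀ s : ℂ, 3 / 2 < s.re → HasProd (factor (K := K) W s) (G s) := by
    intro s hs
    have h1 := hasp W hΔ N f hf n L K hdeg Gc s hs (fun χ _ => hG2 χ s hs)
    rw [finprod_eq_prod_of_fintype] at h1
    exact h1
  refine ⟨G, hGd, hGp, ?_, ?_⟩
  · -- reality
    set H : ℂ → ℂ := fun s => (starRingEnd ℂ) (G ((starRingEnd ℂ) s)) with hH
    have hHd : Differentiable ℂ H := conj_diff hGd
    have h1 : ∀ s : ℂ, 3 / 2 < s.re → H s = G s := by
      intro s hs
      have h2 := hGp ((starRingEnd ℂ) s) (by simpa using hs)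
      have h3 := (hGp s hs).map (starRingEnd ℂ) Complex.continuous_conj
      have h4 : ((starRingEnd ℂ) ∘ factor (K := K) W s) = factor (K := K) W ((starRingEnd ℂ) s) := by
        funext v
        exact (factor_conj s v).symm
      rw [h4] at h3
      have h5 := h2.unique h3
      show (starRingEnd ℂ) (G ((starRingEnd ℂ) s)) = G s
      rw [h5, Complex.conj_conj]
    have h2 : H = G := by
      have hHa : AnalyticOnNhd ℂ H Set.univ := fun z _ => hHd.analyticAt z
      have hGa : AnalyticOnNhd ℂ G Set.univ := fun z _ => hGd.analyticAt z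
      refine hHa.eq_of_eventuallyEq hGa (z₀ := 2) ?_
      have hopen : IsOpen {s : ℂ | 3 / 2 < s.re} := isOpen_lt continuous_const Complex.continuous_re
      filter_upwards [hopen.mem_nhds (show (2 : ℂ) ∈ {s : ℂ | 3 / 2 < s.re} by
        simp only [Set.mem_ofPred_eq]; norm_num)] with s hs
      exact h1 s hs
    have h3 := congrFun h2 1
    simp only [hH, map_one] at h3
    exact Complex.conj_eq_iff_im.1 h3
  · -- the value
    obtain ⟨D, M, hD, hM, hprod⟩ := prod_val hp2 hf hP hl hlN hlp n hsq hco (YY n L K) k (by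
      have hgal : IsGalois ℚ L := IsCyclotomicExtension.isGalois {n} ℚ L
      rw [card_YY, ← IntermediateField.finrank_eq_fixingSubgroup_index, hk])
    have hdisc := Pool.Agent.Y18.JT.s_discr Pool.Agent.Y702.L.s_points n L K hsq
    rw [finprod_eq_prod_of_fintype] at hdisc
    have htwo : ∀ l : ℕ, l.Prime → l ∣ n →
        ((p : ℤ) ∣ ((l : ℤ) - pts W (ZMod l)) - 2 ↔ p ∣ pts W (ZMod l) + 1) := by
      intro l hl hln
      have h1 := hn1 l hl hln
      have e : ((l : ℤ) - pts W (ZMod l)) - 2 = ((l : ℤ) - 1) -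
          ((pts W (ZMod l) + 1 : ℕ) : ℤ) := by push_cast; ring
      rw [e, dvd_sub_right h1]
      exact Int.natCast_dvd_natCast
    have hM' : ¬ (p : ℤ) ∣ M ↔ ¬ (p : ℤ) ∣ s ∧ ∀ l : ℕ, l.Prime → (l : ℤ) ∣ discr K →
        ¬ p ∣ pts W (ZMod l) + 1 := by
      rw [hM, not_or]
      refine and_congr_right fun _ => ?_
      constructor
      · intro h l hl hld hpl
        have h1 : l ∣ ∏ χ : YY n L K, (χ : DirichletCharacter ℂ n).conductor := by
          rw [← hdisc]
          exact Int.natCast_dvd.1 hld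
        obtain ⟨χ, -, hχ⟩ := (Nat.Prime.prime hl).exists_mem_finset_dvd h1
        exact h ⟨χ.1, χ.2, l, hl, hχ, (htwo l hl (hχ.trans
          (χ : DirichletCharacter ℂ n).conductor_dvd_level)).2 hpl⟩
      · rintro h ⟨χ, hχ, l, hl, hlc, hpl⟩
        refine h l hl ?_ ((htwo l hl (hlc.trans χ.conductor_dvd_level)).1 hpl)
        rw [Int.natCast_dvd, hdisc]
        exact hlc.trans (Finset.dvd_prod_of_mem (fun χ : YY n L K =>
          (χ : DirichletCharacter ℂ n).conductor) (Finset.mem_univ (⟨χ, hχ⟩ : YY n L K)))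
    refine ⟨D, M, hD, hM', ?_⟩
    have e1 : D * ∏ χ : YY n L K, (gaussSum ((χ : DirichletCharacter ℂ n).primitiveCharacter)⁻¹
        (ZMod.stdAddChar (N := (χ : DirichletCharacter ℂ n).conductor)) * Gc χ 1) =
        (Op : ℂ) ^ (p ^ k) * M := by
      rw [← hprod]
      congr 1
      exact Finset.prod_congr rfl fun χ _ => hG3 χ.1
    rw [Finset.prod_mul_distrib] at e1
    have e2 := congrArg norm e1
    rw [norm_mul, norm_mul, norm_mul, norm_prod, Complex.norm_intCast,
      Complex.norm_intCast, norm_pow, Complex.norm_real, Real.norm_eq_abs,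
      abs_of_pos hP.Op_pos] at e2
    have e3 : ∏ χ : YY n L K, ‖gaussSum ((χ : DirichletCharacter ℂ n).primitiveCharacter)⁻¹
        (ZMod.stdAddChar (N := (χ : DirichletCharacter ℂ n).conductor))‖ =
        Real.sqrt |(discr K : ℝ)| := by
      have h1 := Pool.Agent.Y18.JT.s_discr Pool.Agent.Y702.L.s_points n L K hsq
      rw [finprod_eq_prod_of_fintype] at h1
      have h2 : |(discr K : ℝ)| = ∏ χ : YY n L K, ((χ : DirichletCharacter ℂ n).conductor : ℝ) := by
        rw [← Int.cast_abs, Int.abs_eq_natAbs, h1]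
        push_cast
        rfl
      rw [h2]
      symm
      rw [Real.sqrt_eq_iff_mul_self_eq (Finset.prod_nonneg fun χ _ => Nat.cast_nonneg _)
        (Finset.prod_nonneg fun χ _ => norm_nonneg _), ← Finset.prod_mul_distrib]
      refine Finset.prod_congr rfl fun χ _ => ?_
      rw [← pow_two]
      symm
      exact H385.GaussAux.norm_sq_gaussSum
        (Pool.Agent.W440.TW.inv_primitive _ (χ : DirichletCharacter ℂ n).primitiveCharacter_isPrimitive)
    rw [e3] at e2
    rw [mul_comm ‖G 1‖]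
    rw [e2]
    ring

end Run7.h946.FP
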