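import Pool.Agent.Run7.h16.OP.Unit

set_option autoImplicit false

/-!
A product of Galois-conjugate character sums of `p`-power order is an integer; it is divisible by `p` if
and only if one of the totals of the coefficients is.
-/

namespace Run7.h946.FP

open Polynomial
open Run7.h16.OP (same_value)

theorem unit_aux {p : ℕ} [hp : Fact p.Prime] (m : ℕ) [NeZero m]
    (Y : Subgroup (DirichletCharacter ℂ m)) (n : ℕ)
    (hY : Nat.card Y = p ^ n) (c : DirichletCharacter ℂ m → (ZMod m)ˣ → ℤ)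
    (hc : ∀ χ ∈ Y, ∀ a : ℕ, Nat.Coprime a p → ∀ u, c (χ ^ a) u = c χ u)
    :
    ∃ N : ℤ, ((p : ℤ) ∣ N ↔ ∃ χ ∈ Y, (p : ℤ) ∣ (∑ u, c χ u)) ∧ ∏ᶠ χ : Y, ∑ u : (ZMod m)ˣ,
      (χ : DirichletCharacter ℂ m) (u : ZMod m) * (c χ u : ℂ) = N := by
  classical
  have hp0 : 0 < p := hp.out.pos
  have hpos : 0 < p ^ n := by positivity
  have : Finite Y := Nat.finite_of_card_ne_zero (by rw [hY]; exact hpos.ne')
  have : Fintype Y := Fintype.ofFinite Y
  obtain ⟨ζ, hζ⟩ : ∃ ζ : ℂ, IsPrimitiveRoot ζ (p ^ n) := ⟨_, Complex.isPrimitiveRoot_exp _ hpos.ne'⟩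
  have hex : ∀ (χ : Y) (u : (ZMod m)ˣ), ∃ e : ℕ, ζ ^ e = (χ : DirichletCharacter ℂ m) (u : ZMod m) := by
    intro χ u
    have h1 : (χ : Y) ^ (p ^ n) = 1 := by rw [← hY]; exact pow_card_eq_one'
    have h2 : ((χ : DirichletCharacter ℂ m) ^ (p ^ n)) = 1 := by
      have := congrArg (fun x : Y => (x : DirichletCharacter ℂ m)) h1
      simpa using this
    have h3 : ((χ : DirichletCharacter ℂ m) (u : ZMod m)) ^ (p ^ n) = 1 := by
      rw [← MulChar.pow_apply_coe, h2, MulChar.one_apply_coe]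
    have : NeZero (p ^ n) := ⟨hpos.ne'⟩
    obtain ⟨i, _, hi⟩ := hζ.eq_pow_of_pow_eq_one h3
    exact ⟨i, hi⟩
  choose e he using hex
  set P : ℤ[X] := ∏ χ : Y, ∑ u : (ZMod m)ˣ, C (c χ u) * X ^ (e χ u) with hP
  set F : Y → ℂ := fun χ => ∑ u : (ZMod m)ˣ,
      (χ : DirichletCharacter ℂ m) (u : ZMod m) * (c χ u : ℂ) with hF
  have hev : ∀ a : ℕ, Nat.Coprime a p → aeval (ζ ^ a) P = ∏ χ : Y, F χ := by
    intro a ha
    have hco : (Nat.card Y).Coprime a := by
      rw [hY]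
      exact Nat.Coprime.pow_left _ ha.symm
    rw [← Fintype.prod_equiv (powCoprime hco) (fun χ => F (χ ^ a)) F (fun χ => rfl), hP,
      map_prod]
    refine Finset.prod_congr rfl fun χ _ => ?_
    rw [map_sum, hF]
    refine Finset.sum_congr rfl fun u _ => ?_
    rw [map_mul, map_pow, aeval_X, aeval_C]
    have h1 : c ((χ ^ a : Y) : DirichletCharacter ℂ m) u = c χ u := by
      rw [SubgroupClass.coe_pow]
      exact hc χ χ.2 a ha u
    rw [h1, SubgroupClass.coe_pow, MulChar.pow_apply_coe, ← he χ u, ← pow_mul, ← pow_mul, mul_comm a]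
    simp only [algebraMap_int_eq, eq_intCast]
    ring
  have hev1 := hev 1 (Nat.coprime_one_left p)
  rw [pow_one] at hev1
  obtain ⟨N, hN1, hN2⟩ := same_value hζ P (fun a ha => by rw [hev a ha, hev1])
  have hpI : Prime (p : ℤ) := Nat.prime_iff_prime_int.1 hp.out
  refine ⟨N, ?_, ?_⟩
  · have h0 : (p : ℤ) ∣ N ↔ (p : ℤ) ∣ P.eval 1 := by
      constructor
      · intro h2
        have := dvd_add hN2 h2
        simpa using this
      · intro h2
        have := dvd_sub h2 hN2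
        simpa using this
    rw [h0, hP, eval_prod, Prime.dvd_finsetProd_iff hpI]
    constructor
    · rintro ⟨χ, _, h2⟩
      rw [eval_finsetSum] at h2
      exact ⟨χ, χ.2, by simpa using h2⟩
    · rintro ⟨χ, hχ, h2⟩
      refine ⟨⟨χ, hχ⟩, Finset.mem_univ _, ?_⟩
      rw [eval_finsetSum]
      simpa using h2
  · rw [finprod_eq_prod_of_fintype, ← hN1, hev1]

end Run7.h946.FP
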