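import Pool.Agent.Run7.h16.OP.Val
import Pool.Agent.Run7.h946.FP.Unit

/-!
# The twisted sums of the modular symbols of an elliptic curve as periods times integral sums: even
characters, modulo an odd prime, with an auxiliary prime
-/

set_option autoImplicit false

open Filter Topology MeasureTheory Set UpperHalfPlane MatrixGroups CongruenceSubgroup Finset

namespace Run7.h946.FP

open Pool.Agent.Y702.G
open Pool.Agent.Y18.BSD (co bv PG HRel bv_tendsto bv_hecke bv_period bv_mem psi psi_prod dd jc FF den_iff)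
open Pool.Agent.TH940 (prim Fr)

variable {W : WeierstrassCurve ℤ} {N : ℕ} [NeZero N]
  {f : CuspForm (Gamma0 N : Subgroup (GL (Fin 2) ℝ)) 2}

/-- the arithmetical data of the periods: a multiple prime to `p` of the periods of `f` lies in the
lattice `Λ`, the traces of the elements of `Λ` are multiples of `Op` and `L(W, 1)` is `Op` times a
quotient of two integers, the second prime to `p` -/
structure PerQ (p : ℕ) (f : CuspForm (Gamma0 N : Subgroup (GL (Fin 2) ℝ)) 2) (Op : ℝ) (Λ : Set ℂ)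
    (c s t : ℤ) : Prop where
  Op_pos : 0 < Op
  re : ∀ w ∈ Λ, ∃ a : ℤ, w + (starRingEnd ℂ) w = a * Op
  c_nd : ¬ (p : ℤ) ∣ c
  man : ∀ x ∈ PG f, (c : ℂ) * x ∈ Λ
  t_nd : ¬ (p : ℤ) ∣ t
  val : (t : ℂ) * bv f 0 = s * Op

lemma not_two {p : ℕ} [hp : Fact p.Prime] (hp2 : p ≠ 2) : ¬ (p : ℤ) ∣ 2 := by
  intro h
  have h3 : p ∣ 2 := by exact_mod_cast h
  exact hp2 ((Nat.prime_dvd_prime_iff_eq hp.out Nat.prime_two).1 h3)

/-- the value at the centre is a period times a quotient with denominator prime to `p` -/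
theorem exists_perQ {p : ℕ} [hp : Fact p.Prime] (hp2 : p ≠ 2) {Op : ℝ} (hOp : 0 < Op) {Λ : Set ℂ}
    (hre : ∀ w ∈ Λ, ∃ a : ℤ, w + (starRingEnd ℂ) w = a * Op) {c : ℤ}
    (hc : ¬ (p : ℤ) ∣ c) (hman : ∀ x ∈ PG f, (c : ℂ) * x ∈ Λ) (hf : IsForm W N f) {l : ℕ}
    (hl : l.Prime) (hlN : ¬ l ∣ N) (hlp : ¬ (p : ℤ) ∣ (pts W (ZMod l) : ℤ) + 1) :
    ∃ s t : ℤ, PerQ p f Op Λ c s t := by
  have hpI : Prime (p : ℤ) := Nat.prime_iff_prime_int.1 hp.out
  obtain ⟨w, -, hfr⟩ := hf.fr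
  set a0 : ℤ := (l : ℤ) - pts W (ZMod l) with ha0
  have hcol : co f l = (a0 : ℂ) := by
    rw [hf.coef l hl, ha0]
    push_cast
    rfl
  set dl : ℤ := (l : ℤ) + 1 - a0 with hdl
  have hdlnd : ¬ (p : ℤ) ∣ dl := by
    have e : dl = (pts W (ZMod l) : ℤ) + 1 := by rw [hdl, ha0]; ring
    rw [e]
    exact hlp
  have h1 := bv_mem hf.hrel hfr hl hlN a0 hcol 0
  obtain ⟨a, h3⟩ := hre _ (hman _ h1)
  have h4 : (starRingEnd ℂ) (bv f 0) = bv f 0 := by
    rw [← bv_conj hf]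
    congr 1
  refine ⟨a, 2 * c * dl, hOp, hre, hc, hman, ?_, ?_⟩
  · intro h
    rcases hpI.dvd_or_dvd h with h | h
    · rcases hpI.dvd_or_dvd h with h | h
      · exact not_two hp2 h
      · exact hc h
    · exact hdlnd h
  · rw [← h3, map_mul, map_mul, map_intCast, map_intCast, h4, hdl]
    push_cast
    ring

theorem val_char {p : ℕ} [hp : Fact p.Prime] (hp2 : p ≠ 2) {Op : ℝ} {Λ : Set ℂ} {c s t : ℤ}
    (hf : IsForm W N f) (hP : PerQ p f Op Λ c s t)
    {l : ℕ} (hl : l.Prime) (hlN : ¬ l ∣ N) (hlp : ¬ (p : ℤ) ∣ (pts W (ZMod l) : ℤ) + 1)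
    (q : ℕ) [NeZero q] (hco : Nat.Coprime q N) (hsq : Squarefree q) :
    ∃ (D : ℤ) (A : (ZMod q)ˣ → ℤ), ¬ (p : ℤ) ∣ D ∧
      ((p : ℤ) ∣ (∑ u, A u) ↔ (p : ℤ) ∣ s ∨ ∃ l : ℕ, l.Prime ∧ l ∣ q ∧
        (p : ℤ) ∣ ((l : ℤ) - pts W (ZMod l)) - 2) ∧
      ∀ ψ : DirichletCharacter ℂ q, ψ (-1) = 1 →
        D * ∑ u : (ZMod q)ˣ, ψ (u : ZMod q) * bv f (((u : ZMod q).val : ℚ) / q) =
          Op * ∑ u : (ZMod q)ˣ, ψ (u : ZMod q) * ((A u : ℤ) : ℂ) := by
  have hpI : Prime (p : ℤ) := Nat.prime_iff_prime_int.1 hp.out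
  by_cases hq1 : q = 1
  · subst hq1
    have hd : ((default : (ZMod 1)ˣ)) = 1 := Subsingleton.elim _ _
    have hv : (((1 : (ZMod 1)ˣ) : ZMod 1).val : ℚ) / ((1 : ℕ) : ℚ) = 0 := by
      have : (((1 : (ZMod 1)ˣ) : ZMod 1)).val = 0 := by
        have := ZMod.val_lt ((1 : (ZMod 1)ˣ) : ZMod 1)
        omega
      rw [this]; simp
    refine ⟨t, fun _ => s, hP.t_nd, by
      rw [Fintype.sum_unique]
      constructor
      · exact fun h => Or.inl h
      · rintro (h | ⟨l, h1, h2, -⟩)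
        · exact h
        · exact absurd (Nat.dvd_one.1 h2) h1.one_lt.ne', fun ψ _ => ?_⟩
    rw [Fintype.sum_unique, Fintype.sum_unique, hd, hv]
    rw [Units.val_one, map_one, one_mul, one_mul, hP.val]
    ring
  have hq : 1 < q := by
    have := NeZero.pos q
    omega
  have hfact : Fact (1 < q) := ⟨hq⟩
  obtain ⟨w, -, hfr⟩ := hf.fr
  set a0 : ℤ := (l : ℤ) - pts W (ZMod l) with ha0
  have hcol : co f l = (a0 : ℂ) := by
    rw [hf.coef l hl, ha0]
    push_cast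
    rfl
  set dl : ℤ := (l : ℤ) + 1 - a0 with hdl
  have hdlnd : ¬ (p : ℤ) ∣ dl := by
    have e : dl = (pts W (ZMod l) : ℤ) + 1 := by rw [hdl, ha0]; ring
    rw [e]
    exact hlp
  have hex : ∀ u : (ZMod q)ˣ, ∃ a : ℤ,
      ((c * dl : ℤ) : ℂ) * (bv f (((u : ZMod q).val : ℚ) / q) +
        (starRingEnd ℂ) (bv f (((u : ZMod q).val : ℚ) / q))) = a * Op := by
    intro u
    have h1 := bv_mem hf.hrel hfr hl hlN a0 hcol (((u : ZMod q).val : ℚ) / q)
    obtain ⟨a, h3⟩ := hP.re _ (hP.man _ h1)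
    refine ⟨a, ?_⟩
    rw [← h3, map_mul, map_mul, map_intCast, map_intCast, Int.cast_mul, hdl]
    ring
  choose A hJ using hex
  have hOp := hP.Op_pos
  have hOpC : (Op : ℂ) ≠ 0 := by exact_mod_cast hOp.ne'
  have hneg : ∀ u : (ZMod q)ˣ, bv f ((((-u : (ZMod q)ˣ) : ZMod q).val : ℚ) / q) =
        (starRingEnd ℂ) (bv f (((u : ZMod q).val : ℚ) / q)) := by
    intro u
    rw [← bv_conj hf]
    have e2 : (((-u : (ZMod q)ˣ) : ZMod q)) = ((-((u : ZMod q).val : ℤ) : ℤ) : ZMod q) := by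
      push_cast
      rw [ZMod.natCast_zmod_val]
    rw [e2, bv_val]
    congr 1
    push_cast
    ring
  have hswap : ∀ F : (ZMod q)ˣ → ℂ, ∑ u, F (-u) = ∑ u, F u := fun F =>
    Fintype.sum_equiv (Equiv.neg _) _ _ fun u => rfl
  -- the total
  have htot : ∑ u : (ZMod q)ˣ, t * A u = 2 * c * dl *
      (∏ l ∈ q.primeFactors, (((l : ℤ) - pts W (ZMod l)) - 2)) * s := by
    have h1 := sum_bv hf q hsq hco
    have h3 : ∏ l ∈ q.primeFactors, (co f l - 2) =
        ((∏ l ∈ q.primeFactors, (((l : ℤ) - pts W (ZMod l)) - 2) : ℤ) : ℂ) := by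
      push_cast
      refine Finset.prod_congr rfl fun l hl => ?_
      rw [hf.coef l (Nat.prime_of_mem_primeFactors hl)]
    rw [h3] at h1
    set E : ℤ := ∏ l ∈ q.primeFactors, (((l : ℤ) - pts W (ZMod l)) - 2) with hE
    have h2 : ((c * dl : ℤ) : ℂ) * (2 * ∑ u : (ZMod q)ˣ, bv f (((u : ZMod q).val : ℚ) / q)) =
        ((∑ u, A u : ℤ) : ℂ) * Op := by
      have h4 : (2 * ∑ u : (ZMod q)ˣ, bv f (((u : ZMod q).val : ℚ) / q)) =
          ∑ u : (ZMod q)ˣ, (bv f (((u : ZMod q).val : ℚ) / q) +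
            (starRingEnd ℂ) (bv f (((u : ZMod q).val : ℚ) / q))) := by
        rw [Finset.sum_add_distrib, two_mul]
        congr 1
        rw [← hswap]
        exact Finset.sum_congr rfl fun u _ => hneg u
      rw [h4, Finset.mul_sum, Finset.sum_congr rfl fun u _ => hJ u, ← Finset.sum_mul]
      push_cast
      rfl
    have h4 : ((t * ∑ u, A u : ℤ) : ℂ) * Op = ((2 * c * dl * E * s : ℤ) : ℂ) * Op := by
      have h5 := hP.val
      rw [h1] at h2
      push_cast at h2 ⊢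
      linear_combination (-(t : ℂ)) * h2 + (2 * c : ℂ) * dl * E * h5
    have h6 : t * ∑ u, A u = 2 * c * dl * E * s := by
      exact_mod_cast mul_right_cancel₀ hOpC h4
    rw [← Finset.mul_sum, h6]
  have h2nd : ¬ (p : ℤ) ∣ 2 := by
    intro h
    have h3 : p ∣ 2 := by exact_mod_cast h
    exact hp2 ((Nat.prime_dvd_prime_iff_eq hp.out Nat.prime_two).1 h3)
  refine ⟨2 * c * dl * t, fun u => t * A u, ?_, ?_, fun ψ hψ => ?_⟩
  · intro h
    rcases hpI.dvd_or_dvd h with h | h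
    · rcases hpI.dvd_or_dvd h with h | h
      · rcases hpI.dvd_or_dvd h with h | h
        · exact h2nd h
        · exact hP.c_nd h
      · exact hdlnd h
    · exact hP.t_nd h
  · rw [htot]
    constructor
    · intro h
      rcases hpI.dvd_or_dvd h with h | h
      · rcases hpI.dvd_or_dvd h with h | h
        · rcases hpI.dvd_or_dvd h with h | h
          · rcases hpI.dvd_or_dvd h with h | h
            · exact absurd h h2nd
            · exact absurd h hP.c_nd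
          · exact absurd h hdlnd
        · obtain ⟨l, hl, h2⟩ := (Prime.dvd_finsetProd_iff hpI _).1 h
          exact Or.inr ⟨l, Nat.prime_of_mem_primeFactors hl, Nat.dvd_of_mem_primeFactors hl, h2⟩
      · exact Or.inl h
    · rintro (h | ⟨l', h1, h2, h3⟩)
      · exact Dvd.dvd.mul_left h _
      · refine Dvd.dvd.mul_right (Dvd.dvd.mul_left ?_ _) _
        exact h3.trans (Finset.dvd_prod_of_mem (fun l : ℕ => ((l : ℤ) - pts W (ZMod l)) - 2)
          (Nat.mem_primeFactors.2 ⟨h1, h2, NeZero.ne q⟩))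
  · have e1 : 2 * ∑ u : (ZMod q)ˣ, ψ (u : ZMod q) * bv f (((u : ZMod q).val : ℚ) / q) =
        ∑ u : (ZMod q)ˣ, ψ (u : ZMod q) * (bv f (((u : ZMod q).val : ℚ) / q) +
            (starRingEnd ℂ) (bv f (((u : ZMod q).val : ℚ) / q))) := by
      simp_rw [mul_add]
      rw [Finset.sum_add_distrib, two_mul]
      congr 1
      rw [← hswap]
      refine Finset.sum_congr rfl fun u _ => ?_
      rw [hneg u, Units.val_neg, ← neg_one_mul, map_mul, hψ, one_mul]
    have e2 : ((2 * c * dl * t : ℤ) : ℂ) *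
        ∑ u : (ZMod q)ˣ, ψ (u : ZMod q) * bv f (((u : ZMod q).val : ℚ) / q) =
        t * (((c * dl : ℤ) : ℂ) * (2 * ∑ u : (ZMod q)ˣ, ψ (u : ZMod q) *
          bv f (((u : ZMod q).val : ℚ) / q))) := by
      push_cast
      ring
    rw [e2, e1, Finset.mul_sum, Finset.mul_sum, Finset.mul_sum]
    refine Finset.sum_congr rfl fun u _ => ?_
    have := hJ u
    push_cast at this ⊢
    linear_combination (ψ (u : ZMod q) * t) * this

end Run7.h946.FP
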