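import Pool.Agent.Run7.h16.OP.Fin
import Pool.Agent.Run7.h946.FP.Val

/-!
# The product of the twisted sums over the characters of `p`-power order, modulo `p`
-/

set_option autoImplicit false

open Filter Topology MeasureTheory Set UpperHalfPlane MatrixGroups CongruenceSubgroup Finset
open NumberField IsDedekindDomain H300.HW NumberField.InfinitePlace

namespace Run7.h946.FP

open Pool.Agent.Y702.G
open Pool.Agent.Y18.BSD (co bv PG)
open Pool.Agent.Y702.L (sect map_sect prim_unit prim_neg_one nz_cond)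
open Run7.h16.OP (wt sum_wt even_of_mem)

variable {W : WeierstrassCurve ℤ} {N : ℕ} [NeZero N]
  {f : CuspForm (Gamma0 N : Subgroup (GL (Fin 2) ℝ)) 2}

open Classical in
theorem prod_val {p : ℕ} [hp : Fact p.Prime] (hp2 : p ≠ 2) {Op : ℝ} {Λ : Set ℂ} {c s t : ℤ}
    (hf : IsForm W N f) (hP : PerQ p f Op Λ c s t)
    {l : ℕ} (hl : l.Prime) (hlN : ¬ l ∣ N) (hlp : ¬ (p : ℤ) ∣ (pts W (ZMod l) : ℤ) + 1)
    (n : ℕ) [NeZero n] (hsq : Squarefree n) (hco : Nat.Coprime n N)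
    (Y : Subgroup (DirichletCharacter ℂ n)) (k : ℕ) (hY : Nat.card Y = p ^ k) :
    ∃ D M : ℤ, ¬ (p : ℤ) ∣ D ∧
      ((p : ℤ) ∣ M ↔ (p : ℤ) ∣ s ∨ ∃ χ ∈ Y, ∃ l : ℕ, l.Prime ∧ l ∣ χ.conductor ∧
        (p : ℤ) ∣ ((l : ℤ) - pts W (ZMod l)) - 2) ∧
      D * ∏ χ : Y, (∑ u : (ZMod (χ : DirichletCharacter ℂ n).conductor)ˣ,
        ((χ : DirichletCharacter ℂ n).primitiveCharacter)⁻¹ (u : ZMod _) *
          bv f (((u : ZMod (χ : DirichletCharacter ℂ n).conductor).val : ℚ) /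
            (χ : DirichletCharacter ℂ n).conductor)) =
      (Op : ℂ) ^ (p ^ k) * M := by
  have hpI : Prime (p : ℤ) := Nat.prime_iff_prime_int.1 hp.out
  have nz : ∀ q : ℕ, q ∣ n → NeZero q := fun q h => ⟨fun h0 => NeZero.ne n (by
    rw [h0] at h; exact zero_dvd_iff.1 h)⟩
  have hex : ∀ (q : ℕ) (h : q ∣ n), haveI := nz q h;
      ∃ (D : ℤ) (A : (ZMod q)ˣ → ℤ), ¬ (p : ℤ) ∣ D ∧
      ((p : ℤ) ∣ (∑ u, A u) ↔ (p : ℤ) ∣ s ∨ ∃ l : ℕ, l.Prime ∧ l ∣ q ∧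
        (p : ℤ) ∣ ((l : ℤ) - pts W (ZMod l)) - 2) ∧
      ∀ ψ : DirichletCharacter ℂ q, ψ (-1) = 1 →
        D * ∑ u : (ZMod q)ˣ, ψ (u : ZMod q) * bv f (((u : ZMod q).val : ℚ) / q) =
          Op * ∑ u : (ZMod q)ˣ, ψ (u : ZMod q) * ((A u : ℤ) : ℂ) := by
    intro q h
    haveI := nz q h
    exact val_char hp2 hf hP hl hlN hlp q
      (Nat.Coprime.coprime_dvd_left h hco) (hsq.squarefree_of_dvd h)
  choose D A hD hA hV using hex
  -- the weights
  let Wt : (q : ℕ) → q ∣ n → (ZMod n)ˣ → ℤ := fun q h =>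
    haveI := nz q h
    wt h (fun t => A q h t)
  have hW : ∀ (q1 q2 : ℕ) (h1 : q1 ∣ n) (h2 : q2 ∣ n), q1 = q2 →
      ∀ u, Wt q1 h1 u = Wt q2 h2 u := by
    rintro q1 _ h1 h2 rfl u
    rfl
  let cw : DirichletCharacter ℂ n → (ZMod n)ˣ → ℤ := fun χ =>
    Wt χ.conductor χ.conductor_dvd_level
  have hpow : ∀ χ ∈ Y, ∀ a : ℕ, Nat.Coprime a p → ∀ u, cw (χ ^ a) u = cw χ u := by
    intro χ hχ a ha u
    apply hW
    apply Nat.dvd_antisymm (χ.conductor_pow_dvd a)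
    -- an inverse exponent
    have h2k : χ ^ (p ^ k) = 1 := by
      have h1 : (⟨χ, hχ⟩ : Y) ^ Nat.card Y = 1 := pow_card_eq_one'
      rw [hY] at h1
      exact congrArg Subtype.val h1
    obtain ⟨b, hb⟩ : ∃ b : ℕ, χ ^ (a * b) = χ := by
      have hcop : Nat.Coprime a (p ^ k) := ha.pow_right k
      rcases Nat.eq_zero_or_pos k with hk0 | hk0
      · subst hk0
        rw [pow_zero, pow_one] at h2k
        exact ⟨1, by rw [h2k, one_pow]⟩
      · have h2 : 1 < p ^ k := Nat.one_lt_pow hk0.ne' hp.out.one_lt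
        obtain ⟨b, hb⟩ := Nat.exists_mul_mod_eq_one_of_coprime hcop h2
        refine ⟨b, ?_⟩
        rw [← Nat.div_add_mod (a * b) (p ^ k), hb.2, pow_add, pow_mul, h2k, one_pow, one_mul,
          pow_one]
    have h3 := (χ ^ a).conductor_pow_dvd b
    rwa [← pow_mul, hb] at h3
  have hoddc : ∀ χ ∈ Y, ((p : ℤ) ∣ (∑ u, cw χ u) ↔ (p : ℤ) ∣ s ∨ ∃ l : ℕ, l.Prime ∧
      l ∣ χ.conductor ∧ (p : ℤ) ∣ ((l : ℤ) - pts W (ZMod l)) - 2) := by
    intro χ _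
    have h1 := sum_wt (R := ℤ) χ.conductor_dvd_level (fun t =>
      A χ.conductor χ.conductor_dvd_level t) (fun _ => 1)
    simp only [one_mul, Int.cast_id] at h1
    have h2 : ∑ u, cw χ u = ∑ t, (A χ.conductor χ.conductor_dvd_level t) := h1
    rw [h2]
    exact hA _ _
  obtain ⟨M, hM, hprod⟩ := unit_aux n Y k hY cw hpow
  have hM' : (p : ℤ) ∣ M ↔ (p : ℤ) ∣ s ∨ ∃ χ ∈ Y, ∃ l : ℕ, l.Prime ∧ l ∣ χ.conductor ∧
        (p : ℤ) ∣ ((l : ℤ) - pts W (ZMod l)) - 2 := by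
    rw [hM]
    constructor
    · rintro ⟨χ, hχ, h⟩
      rcases (hoddc χ hχ).1 h with h | h
      · exact Or.inl h
      · exact Or.inr ⟨χ, hχ, h⟩
    · rintro (h | ⟨χ, hχ, h⟩)
      · exact ⟨1, Y.one_mem, (hoddc 1 Y.one_mem).2 (Or.inl h)⟩
      · exact ⟨χ, hχ, (hoddc χ hχ).2 (Or.inr h)⟩
  refine ⟨∏ χ : Y, D (χ : DirichletCharacter ℂ n).conductor
    (χ : DirichletCharacter ℂ n).conductor_dvd_level, M, ?_, hM', ?_⟩
  · intro h
    obtain ⟨χ, _, h2⟩ := (Prime.dvd_finsetProd_iff hpI _).1 h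
    exact hD _ _ h2
  -- each factor
  have hfac : ∀ χ : Y, (D (χ : DirichletCharacter ℂ n).conductor
      (χ : DirichletCharacter ℂ n).conductor_dvd_level : ℂ) *
      (∑ u : (ZMod (χ : DirichletCharacter ℂ n).conductor)ˣ,
        ((χ : DirichletCharacter ℂ n).primitiveCharacter)⁻¹ (u : ZMod _) *
          bv f (((u : ZMod (χ : DirichletCharacter ℂ n).conductor).val : ℚ) /
            (χ : DirichletCharacter ℂ n).conductor)) =
      Op * ∑ u : (ZMod n)ˣ, ((χ⁻¹ : Y) : DirichletCharacter ℂ n) (u : ZMod n) *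
          ((cw (χ⁻¹ : Y) u : ℤ) : ℂ) := by
    rintro ⟨χ, hχ⟩
    have hm : (χ.primitiveCharacter)⁻¹ (-1) = 1 := by
      have e1 : (χ.primitiveCharacter)⁻¹ (-1) = (χ (-1))⁻¹ := by
        rw [← prim_neg_one χ, MulChar.inv_apply_eq_inv']
      rw [e1, even_of_mem hp2 hY hχ, inv_one]
    have h1 := hV χ.conductor χ.conductor_dvd_level (χ.primitiveCharacter)⁻¹ hm
    refine h1.trans ?_
    congr 1
    show _ = ∑ u : (ZMod n)ˣ, χ⁻¹ (u : ZMod n) * ((cw χ⁻¹ u : ℤ) : ℂ)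
    have h3 : ∀ u, cw χ⁻¹ u = cw χ u := by
      intro u
      apply hW
      exact χ.conductor_inv
    simp_rw [h3]
    have h4 := sum_wt (R := ℂ) χ.conductor_dvd_level (fun t =>
      A χ.conductor χ.conductor_dvd_level t) (fun u => χ⁻¹ (u : ZMod n))
    refine Eq.trans ?_ h4.symm
    refine Finset.sum_congr rfl fun t _ => ?_
    have h5 : χ⁻¹ ((sect χ.conductor_dvd_level t : (ZMod n)ˣ) : ZMod n) =
        (χ.primitiveCharacter)⁻¹ (t : ZMod _) := by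
      rw [MulChar.inv_apply_eq_inv', MulChar.inv_apply_eq_inv', prim_unit, map_sect]
    rw [h5]
  push_cast
  rw [← Finset.prod_mul_distrib, Finset.prod_congr rfl (fun χ _ => hfac χ), Finset.prod_mul_distrib]
  congr 1
  · rw [Finset.prod_const, Finset.card_univ, ← Nat.card_eq_fintype_card, hY]
  rw [← hprod, finprod_eq_prod_of_fintype]
  exact Fintype.prod_equiv (Equiv.inv Y) _ _ fun χ => rfl

end Run7.h946.FP
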